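import Mathlib
import Pool.Agent.Lib.helper1.Pak

set_option autoImplicit false
set_option linter.unusedSectionVars false

open Finset Filter Topology Matrix

namespace Pool.Agent.Results.MP_1e9518_pr.NoSepCutoff

section Defs
variable {V : Type} [Fintype V] [DecidableEq V] (G : SimpleGraph V) [DecidableRel G.Adj]

/-- Lazy simple random walk `P = (I + D⁻¹ A) / 2`. -/
noncomputable def P : Matrix V V ℝ := fun x y =>
  (1 / 2) * ((if x = y then 1 else 0) + G.adjMatrix ℝ x y / (G.degree x : ℝ))

/-- Total variation distance to the uniform law at time `t` (worst start). -/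
noncomputable def d (t : ℕ) : ℝ :=
  ⨆ x : V, (1 / 2) * ∑ y : V, |(P G ^ t) x y - 1 / (Fintype.card V : ℝ)|

/-- Separation distance at time `t` (worst start). -/
noncomputable def sep (t : ℕ) : ℝ :=
  ⨆ x : V, ⨆ y : V, (1 - (P G ^ t) x y / (1 / (Fintype.card V : ℝ)))

/-- The total variation `ε`-mixing time. -/
noncomputable def tmix (ε : ℝ) : ℕ := sInf {t : ℕ | d G t ≤ ε}

/-- The `ε`-separation time. -/
noncomputable def tsep (ε : ℝ) : ℕ := sInf {t : ℕ | sep G t ≤ ε}

/-- The largest eigenvalue of `P G` other than `1`. -/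
noncomputable def lam2 : ℝ :=
  sSup {l : ℝ | l ≠ 1 ∧ ∃ f : V → ℝ, f ≠ 0 ∧ P G *ᵥ f = l • f}

/-- Relaxation time. -/
noncomputable def trel : ℝ := 1 / (1 - lam2 G)

end Defs

open Pool.Agent.Lib.helper1.Pak

lemma P_eq {G : Type} [AddCommGroup G] [Fintype G] [DecidableEq G] {N : ℕ} {Z : Finset G}
    (h : Good N Z) : P (cay Z h.symm h.zero) = lz Z := by
  ext x y
  simp only [P, lz, trans_eq h.symm, cay_degree, SimpleGraph.adjMatrix_apply, cay_adj]

lemma facts {G : Type} [AddCommGroup G] [Fintype G] [DecidableEq G] {N : ℕ} {Z : Finset G}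
    (h : Good N Z) :
    (N : ℝ) ≤ tmix (cay Z h.symm h.zero) (1 / 4) / trel (cay Z h.symm h.zero) ∧
      (2 : ℝ) ≤ (tsep (cay Z h.symm h.zero) (1 / 20) : ℝ) /
        (tsep (cay Z h.symm h.zero) (1 - 1 / 20) : ℝ) := by
  have hc : (0 : ℝ) < Fintype.card G := by exact_mod_cast Fintype.card_pos
  have hN : (0 : ℝ) ≤ N := by positivity
  have hnum := numerics (d (cay Z h.symm h.zero)) N (fun t ht => by
      refine (lz_low h t ht).trans ?_
      rw [← P_eq h]
      exact le_ciSup (f := fun x : G => (1 / 2) * ∑ y : G,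
        |(P (cay Z h.symm h.zero) ^ t) x y - 1 / (Fintype.card G : ℝ)|)
        (Finite.bddAbove_range _) 0)
    (fun k => by
      refine ciSup_le fun x => ?_
      rw [P_eq h]
      exact tv_le_sep _ (((lz_DS h).pow _).row x) _ (by positivity) (lz_up h k x))
  have hnum2 := numerics (sep (cay Z h.symm h.zero)) N (fun t ht => by
      have h1 := lz_low h t ht
      have h2 : ∀ y, (1 - max (sep (cay Z h.symm h.zero) t) 0) / (Fintype.card G : ℝ) ≤
          (lz Z ^ t) 0 y := by
        intro y
        have h3 : 1 - (P (cay Z h.symm h.zero) ^ t) 0 y / (1 / (Fintype.card G : ℝ)) ≤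
            sep (cay Z h.symm h.zero) t := by
          refine le_trans ?_ (le_ciSup (f := fun x : G => ⨆ y : G,
            (1 - (P (cay Z h.symm h.zero) ^ t) x y / (1 / (Fintype.card G : ℝ))))
            (Finite.bddAbove_range _) 0)
          exact le_ciSup (f := fun y : G =>
            (1 - (P (cay Z h.symm h.zero) ^ t) 0 y / (1 / (Fintype.card G : ℝ))))
            (Finite.bddAbove_range _) y
        rw [P_eq h, div_div_eq_mul_div, div_one] at h3
        rw [div_le_iff₀ hc]
        linarith [le_max_left (sep (cay Z h.symm h.zero) t) 0]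
      have h4 := tv_le_sep _ (((lz_DS h).pow t).row 0) _ (le_max_right _ _) h2
      have h5 : (t : ℝ) ≤ 20 * (N + 1) := by exact_mod_cast ht.le
      have h6 : (t : ℝ) / (40 * ((N : ℝ) + 1)) ≤ 1 / 2 := by
        rw [div_le_iff₀ (by positivity)]; linarith
      rcases le_total (sep (cay Z h.symm h.zero) t) 0 with h7 | h7
      · rw [max_eq_right h7] at h4; linarith
      · rw [max_eq_left h7] at h4; linarith)
    (fun k => by
      refine ciSup_le fun x => ciSup_le fun y => ?_
      have h1 := lz_up h k x y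
      rw [div_le_iff₀ hc] at h1
      rw [P_eq h, div_div_eq_mul_div, div_one]
      linarith)
  refine ⟨?_, hnum2.2⟩
  have h1 : lam2 (cay Z h.symm h.zero) ≤ 3 / 4 := by
    refine Real.sSup_le ?_ (by norm_num)
    rintro l ⟨hl, f, hf, he⟩
    rw [P_eq h] at he
    exact lz_eig h f hf l hl he
  have h2 : 20 * ((N : ℝ) + 1) ≤ tmix (cay Z h.symm h.zero) (1 / 4) := by exact_mod_cast hnum.1
  rw [trel, div_div_eq_mul_div, div_one]
  nlinarith

theorem result :
    ∃ (V : ℕ → Type) (_ : ∀ n, Fintype (V n)) (_ : ∀ n, DecidableEq (V n))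
      (G : ∀ n, SimpleGraph (V n)) (_ : ∀ n, DecidableRel (G n).Adj),
      (∀ n, (G n).Connected) ∧ (∀ n x y, ∃ φ : G n ≃g G n, φ x = y) ∧
      Tendsto (fun n => Fintype.card (V n)) atTop atTop ∧
      Tendsto (fun n => (tmix (G n) (1 / 4) : ℝ) / trel (G n)) atTop atTop ∧
      ¬ ∀ ε ∈ Set.Ioo (0 : ℝ) (1 / 2),
        Tendsto (fun n => (tsep (G n) ε : ℝ) / (tsep (G n) (1 - ε) : ℝ)) atTop (𝓝 1) := by
  choose G i1 i2 i3 Z h using package
  refine ⟨G, i2, i3, fun n => cay (Z n) (h n).symm (h n).zero, fun n => inferInstance,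
    fun n => cay_connected (h n), fun n => cay_transitive _ _, ?_, ?_, ?_⟩
  · exact tendsto_atTop_mono (fun n => by have := (h n).big; simp only [id]; omega) tendsto_id
  · exact tendsto_atTop_mono (fun n => (facts (h n)).1) tendsto_natCast_atTop_atTop
  · intro hc
    have := ge_of_tendsto' (hc (1 / 20) ⟨by norm_num, by norm_num⟩) fun n => (facts (h n)).2
    linarith

end Pool.Agent.Results.MP_1e9518_pr.NoSepCutoff
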